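import Pool.Agent.H79.Five.Sem

/-!
# Certificates given by one number

`dG C n false 0` decodes the certificate written in the binary digits of `C` (`n` bounds its depth).
No property of the decoder is used: `S.ofN` and `NZ.ofN` are `S.of` and `NZ.of` for the decoded tree.
-/

set_option autoImplicit false

namespace Pool.Agent.H79.Five

/-- `k v`, with the value of `v` computed first. -/
def ft (v : Nat) (k : Nat → T) : T := @Nat.rec (fun _ => T) T.e (fun p _ => k p) (Nat.add v (nat_lit 1))

/-- Cells of a list of `n` numbers of ten bits. -/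
def dL (n : Nat) : Nat → List Nat := @Nat.rec (fun _ => Nat → List Nat) (fun _ => List.nil)
  (fun _ r h => List.cons (Nat.land h (nat_lit 1023)) (r (Nat.shiftRight h (nat_lit 10)))) n

/-- The type of the decoder: kind of the piece, its place. -/
abbrev DFn := Bool → Nat → T

/-- A double attack node. -/
def dD (h : Nat) : T := ft (Nat.land (Nat.shiftRight h (nat_lit 2)) (nat_lit 1023)) fun m =>
  ft (Nat.land (Nat.shiftRight h (nat_lit 12)) (nat_lit 4095)) fun w =>
  ft (Nat.land (Nat.shiftRight h (nat_lit 24)) (nat_lit 1023)) fun c =>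
  ft (Nat.land (Nat.shiftRight h (nat_lit 34)) (nat_lit 4095)) fun w2 =>
  ft (Nat.land (Nat.shiftRight h (nat_lit 46)) (nat_lit 1023)) fun c2 => T.d m w c w2 c2

/-- A quiet move node. -/
def dQ (r : DFn) (p h : Nat) : T := ft (Nat.land (Nat.shiftRight h (nat_lit 2)) (nat_lit 1023)) fun m =>
  ft (Nat.add p (nat_lit 12)) fun p2 => T.q m (r true p2)

/-- A forcing move node. -/
def dR (r : DFn) (p h : Nat) : T := ft (Nat.land (Nat.shiftRight h (nat_lit 2)) (nat_lit 1023)) fun m =>
  ft (Nat.land (Nat.shiftRight h (nat_lit 12)) (nat_lit 4095)) fun w =>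
  ft (Nat.land (Nat.shiftRight h (nat_lit 24)) (nat_lit 1023)) fun c =>
  ft (Nat.add p (nat_lit 34)) fun p2 => T.r m w c (r false p2)

/-- A final node. -/
def dV (h : Nat) : T := T.v (Nat.land (Nat.shiftRight h (nat_lit 2)) (nat_lit 4095)) (Nat.land (Nat.shiftRight h (nat_lit 14)) (nat_lit 1023))

/-- A node: tag of 2 bits (0 d, 1 q, 2 r, 3 v). -/
def dN (r : DFn) (p h : Nat) : T :=
  @Nat.rec (fun _ => T) (dD h) (fun t1 _ => @Nat.rec (fun _ => T) (dQ r p h)
    (fun t2 _ => @Nat.rec (fun _ => T) (dR r p h) (fun _ _ => dV h) t2) t1) (Nat.land h (nat_lit 3))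

/-- One alternative and the rest. -/
def dA2 (r : DFn) (z p h : Nat) : T :=
  ft (Nat.add p (Nat.land (Nat.shiftRight h (nat_lit 2)) (nat_lit 0xffffff))) fun p2 =>
  T.a z (dL (Nat.land (Nat.shiftRight h (nat_lit 26)) (nat_lit 7)) (Nat.shiftRight h (nat_lit 29))) (r false p)
    (r true p2)

/-- The alternatives: tag of 2 bits (0 end, 1 z = 0, 2 z = 1), length of the code of the child (24 bits),
number of cells (3 bits), the cells (10 bits each), the child, the other alternatives. -/
def dA (r : DFn) (p h : Nat) : T :=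
  @Nat.rec (fun _ => T) T.e (fun t1 _ => ft (Nat.add p (Nat.add (nat_lit 29) (Nat.mul (nat_lit 10) (Nat.land (Nat.shiftRight h (nat_lit 26)) (nat_lit 7))))) fun p1 => dA2 r t1 p1 h)
    (Nat.land h (nat_lit 3))

/-- The decoder. -/
def dG (C n : Nat) : DFn :=
  @Nat.rec (fun _ => DFn) (fun _ _ => T.e)
    (fun _ r b p => @Bool.rec (fun _ => T)
      (ft (Nat.land (Nat.shiftRight C p) (nat_lit 0xffffffffffffffff)) fun h => dN r p h)
      (ft (Nat.land (Nat.shiftRight C p) (nat_lit 0xffffffffffffffffffffffffffff)) fun h => dA r p h) b) n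

theorem S.ofN {X : ℕ} (C n : ℕ)
    (h : Nat.beq (F (dG C n false (nat_lit 0)) false X (nat_lit 0) (nat_lit 0) (nat_lit 0) (nat_lit 0)) (nat_lit 0) = false) :
    S X :=
  S.of (dG C n false 0) h

theorem NZ.ofN {X Z : ℕ} (C n : ℕ) (h : z1 (dG C n false (nat_lit 0)) X Z = 1) : NZ X Z :=
  NZ.of (dG C n false 0) h

end Pool.Agent.H79.Five
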