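import Pool.Agent.H83.Five.Pair

set_option autoImplicit false
set_option linter.all false

/-! The assembly of the first move from three ranges of the reply. -/

namespace Pool.Agent.H79.Five

theorem fin {k : ℕ} (hn : ∃ n, ∀ d : Cell, d ≠ (0, 0) → 0 ≤ d.2 → d.2 ≤ d.1 → d.1 ≤ (k : ℤ) →
      W n {((0 : ℤ), (0 : ℤ))} {d})
    {l : ℤ} (hm : ∃ n, ∀ d : Cell, (k : ℤ) + 1 ≤ d.1 → d.1 ≤ l → 0 ≤ d.2 → d.2 ≤ d.1 →
      W n {((0 : ℤ), (0 : ℤ))} {d})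
    (hf : ∃ n, ∀ d : Cell, l + 1 ≤ d.1 → W n {((0 : ℤ), (0 : ℤ))} {d}) : ∃ N, W N ∅ ∅ := by
  obtain ⟨n1, h1⟩ := hn
  obtain ⟨n2, h2⟩ := hm
  obtain ⟨n3, h3⟩ := hf
  refine assemble ⟨max n1 (max n2 n3), fun d hd hy hx => ?_⟩
  rcases le_or_gt d.1 (k : ℤ) with hk | hk
  · exact (h1 d hd hy hx hk).le (le_max_left _ _)
  · rcases le_or_gt d.1 l with hl | hl
    · exact (h2 d (by omega) hl hy hx).le ((le_max_left _ _).trans (le_max_right _ _))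
    · exact (h3 d (by omega)).le ((le_max_right _ _).trans (le_max_right _ _))

/-- the ranges `1 .. 5`, `6 .. 9`, `10 ..` -/
theorem fin5 (hn : ∃ n, ∀ d : Cell, d ≠ (0, 0) → 0 ≤ d.2 → d.2 ≤ d.1 → d.1 ≤ ((5 : ℕ) : ℤ) →
      W n {((0 : ℤ), (0 : ℤ))} {d})
    (hm : ∃ n, ∀ d : Cell, 6 ≤ d.1 → d.1 ≤ 9 → 0 ≤ d.2 → d.2 ≤ d.1 →
      W n {((0 : ℤ), (0 : ℤ))} {d})
    (hf : ∃ n, ∀ d : Cell, 10 ≤ d.1 → W n {((0 : ℤ), (0 : ℤ))} {d}) : ∃ N, W N ∅ ∅ := by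
  refine fin (k := 5) (l := 9) hn ?_ ?_
  · obtain ⟨n, h⟩ := hm
    exact ⟨n, fun d h1 h2 h3 h4 => h d (by push_cast at h1; omega) h2 h3 h4⟩
  · obtain ⟨n, h⟩ := hf
    exact ⟨n, fun d h1 => h d (by omega)⟩

end Pool.Agent.H79.Five
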