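import Pool.Agent.H83.Five.Fin

set_option autoImplicit false
set_option linter.all false
set_option maxRecDepth 10000

/-! The replies at distance at most `5`, from the twenty pair covers. -/

namespace Pool.Agent.H79.Five

theorem nk5 : nk [494, 526, 497, 465, 557, 498, 466, 562, 594, 499, 467, 435, 595, 619, 500, 468, 564, 596, 372, 650] 5 = true := by
  decide +kernel

theorem near_of (h10 : PC 494) (h11 : PC 526) (h20 : PC 497) (h21 : PC 465) (h22 : PC 557)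
    (h30 : PC 498) (h31 : PC 466) (h32 : PC 562) (h33 : PC 594)
    (h40 : PC 499) (h41 : PC 467) (h42 : PC 435) (h43 : PC 595) (h44 : PC 619)
    (h50 : PC 500) (h51 : PC 468) (h52 : PC 564) (h53 : PC 596) (h54 : PC 372) (h55 : PC 650) :
    ∃ n, ∀ d : Cell, d ≠ (0, 0) → 0 ≤ d.2 → d.2 ≤ d.1 → d.1 ≤ ((5 : ℕ) : ℤ) → W n {((0 : ℤ), (0 : ℤ))} {d} := by
  refine near _ 5 ?_ nk5
  intro a ha
  simp only [List.mem_cons, List.not_mem_nil, or_false] at ha
  rcases ha with rfl | rfl | rfl | rfl | rfl | rfl | rfl | rfl | rfl | rfl | rfl | rfl | rfl | rfl | rfl | rfl |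
    rfl | rfl | rfl | rfl
  all_goals assumption

/-- The whole assembly. -/
theorem win_of (h10 : PC 494) (h11 : PC 526) (h20 : PC 497) (h21 : PC 465) (h22 : PC 557)
    (h30 : PC 498) (h31 : PC 466) (h32 : PC 562) (h33 : PC 594)
    (h40 : PC 499) (h41 : PC 467) (h42 : PC 435) (h43 : PC 595) (h44 : PC 619)
    (h50 : PC 500) (h51 : PC 468) (h52 : PC 564) (h53 : PC 596) (h54 : PC 372) (h55 : PC 650)
    (hm : ∃ n, ∀ d : Cell, 6 ≤ d.1 → d.1 ≤ 9 → 0 ≤ d.2 → d.2 ≤ d.1 → W n {((0 : ℤ), (0 : ℤ))} {d})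
    (hf : ∃ n, ∀ d : Cell, 10 ≤ d.1 → W n {((0 : ℤ), (0 : ℤ))} {d}) : ∃ N, W N ∅ ∅ :=
  fin5 (near_of h10 h11 h20 h21 h22 h30 h31 h32 h33 h40 h41 h42 h43 h44 h50 h51 h52 h53 h54 h55) hm hf

end Pool.Agent.H79.Five
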