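import Mathlib
import Pool.Agent.H79.Five.Game

set_option autoImplicit false

/-! Symmetries of the board and the assembly of the first move. -/

namespace Pool.Agent.H79.Five

/-- five in a row, with either orientation of the direction -/
theorem five_neg {S : Finset Cell} {a d : Cell}
    (hd : d = (1, 0) ∨ d = (0, 1) ∨ d = (1, 1) ∨ d = (1, -1))
    (h : ∀ k : ℕ, k < 5 → a - (k : ℤ) • d ∈ S) : Five S := by
  refine ⟨a - (4 : ℤ) • d, d, hd, fun k hk => ?_⟩
  have h1 := h (4 - k) (by omega)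
  have h2 : a - ((4 - k : ℕ) : ℤ) • d = a - (4 : ℤ) • d + (k : ℤ) • d := by
    have h3 : ((4 - k : ℕ) : ℤ) = 4 - (k : ℤ) := by omega
    rw [h3, sub_smul]
    abel
  rw [h2] at h1
  exact h1

/-- the directions up to sign -/
def Dir (d : Cell) : Prop := d = (1, 0) ∨ d = (0, 1) ∨ d = (1, 1) ∨ d = (1, -1)

theorem five_of_dir {S : Finset Cell} {a d : Cell} (hd : Dir d ∨ Dir (-d))
    (h : ∀ k : ℕ, k < 5 → a + (k : ℤ) • d ∈ S) : Five S := by
  rcases hd with hd | hd
  · exact ⟨a, d, hd, h⟩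
  · refine five_neg hd (a := a) fun k hk => ?_
    have h1 := h k hk
    rwa [smul_neg, sub_neg_eq_add]

/-- A symmetry given by an affine map which permutes the directions up to sign. -/
theorem five_map_of {e : Cell ≃ Cell} {L : Cell → Cell}
    (he : ∀ (a d : Cell) (k : ℕ), e (a + (k : ℤ) • d) = e a + (k : ℤ) • L d)
    (hL : ∀ d, Dir d → Dir (L d) ∨ Dir (-(L d))) {S : Finset Cell} (h : Five S) :
    Five (S.map e.toEmbedding) := by
  obtain ⟨a, d, hd, hk⟩ := h
  refine five_of_dir (a := e a) (hL d hd) fun k hk' => ?_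
  rw [← he]
  exact Finset.mem_map_of_mem e.toEmbedding (hk k hk')

theorem map_symm_map (e : Cell ≃ Cell) (S : Finset Cell) :
    (S.map e.toEmbedding).map e.symm.toEmbedding = S := by
  rw [Finset.map_map]
  ext x
  simp

theorem five_iff {e : Cell ≃ Cell} (h1 : ∀ S : Finset Cell, Five S → Five (S.map e.toEmbedding))
    (h2 : ∀ S : Finset Cell, Five S → Five (S.map e.symm.toEmbedding)) (S : Finset Cell) :
    Five (S.map e.toEmbedding) ↔ Five S := by
  refine ⟨fun h => ?_, h1 S⟩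
  have h3 := h2 _ h
  rwa [map_symm_map] at h3

/-- translation -/
def tr (v : Cell) : Cell ≃ Cell := Equiv.addRight v

/-- the reflection `(x, y) ↦ (y, x)` -/
def sw : Cell ≃ Cell := Equiv.prodComm ℤ ℤ

/-- the reflection `(x, y) ↦ (-x, y)` -/
def nx : Cell ≃ Cell := (Equiv.neg ℤ).prodCongr (Equiv.refl ℤ)

/-- the reflection `(x, y) ↦ (x, -y)` -/
def ny : Cell ≃ Cell := (Equiv.refl ℤ).prodCongr (Equiv.neg ℤ)

theorem five_tr (v : Cell) (S : Finset Cell) : Five (S.map (tr v).toEmbedding) ↔ Five S := by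
  have h : ∀ (v : Cell) (S : Finset Cell), Five S → Five (S.map (tr v).toEmbedding) := by
    intro v S hS
    refine five_map_of (L := id) (fun a d k => ?_) (fun d hd => Or.inl hd) hS
    change a + (k : ℤ) • d + v = a + v + (k : ℤ) • d
    abel
  refine five_iff (h v) (fun S hS => ?_) S
  have e : (tr v).symm = tr (-v) := by
    ext x <;> simp [tr]
  rw [e]
  exact h (-v) S hS

theorem five_sw (S : Finset Cell) : Five (S.map sw.toEmbedding) ↔ Five S := by
  have h : ∀ (S : Finset Cell), Five S → Five (S.map sw.toEmbedding) := by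
    intro S hS
    refine five_map_of (L := fun d => (d.2, d.1)) (fun a d k => ?_) (fun d hd => ?_) hS
    · apply Prod.ext <;> simp [sw]
    · rcases hd with rfl | rfl | rfl | rfl <;> simp [Dir]
  exact five_iff h h S

theorem five_nx (S : Finset Cell) : Five (S.map nx.toEmbedding) ↔ Five S := by
  have h : ∀ (S : Finset Cell), Five S → Five (S.map nx.toEmbedding) := by
    intro S hS
    refine five_map_of (L := fun d => (-d.1, d.2)) (fun a d k => ?_) (fun d hd => ?_) hS
    · apply Prod.ext <;> simp [nx]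
      ring
    · rcases hd with rfl | rfl | rfl | rfl <;> simp [Dir]
  exact five_iff h h S

theorem five_ny (S : Finset Cell) : Five (S.map ny.toEmbedding) ↔ Five S := by
  have h : ∀ (S : Finset Cell), Five S → Five (S.map ny.toEmbedding) := by
    intro S hS
    refine five_map_of (L := fun d => (d.1, -d.2)) (fun a d k => ?_) (fun d hd => ?_) hS
    · apply Prod.ext <;> simp [ny]
      ring
    · rcases hd with rfl | rfl | rfl | rfl <;> simp [Dir]
  exact five_iff h h S

theorem W.translate {n : ℕ} (v : Cell) {A B : Finset Cell} (h : W n A B) :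
    W n (A.map (tr v).toEmbedding) (B.map (tr v).toEmbedding) := h.map (tr v) (five_tr v)

/-- one stone each: a symmetry fixing the origin -/
theorem W.one {n : ℕ} (e : Cell ≃ Cell) (he : ∀ S : Finset Cell, Five (S.map e.toEmbedding) ↔ Five S)
    (h0 : e (0, 0) = (0, 0)) {d : Cell} (h : W n {((0 : ℤ), (0 : ℤ))} {d}) :
    W n {((0 : ℤ), (0 : ℤ))} {e d} := by
  have h1 := h.map e he
  rw [Finset.map_singleton, Finset.map_singleton] at h1
  change W n {e (0, 0)} {e d} at h1
  rwa [h0] at h1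

theorem W.sw {n : ℕ} {x y : ℤ} (h : W n {((0 : ℤ), (0 : ℤ))} {(x, y)}) :
    W n {((0 : ℤ), (0 : ℤ))} {(y, x)} := h.one Five.sw five_sw rfl

theorem W.nx {n : ℕ} {x y : ℤ} (h : W n {((0 : ℤ), (0 : ℤ))} {(x, y)}) :
    W n {((0 : ℤ), (0 : ℤ))} {(-x, y)} := h.one Five.nx five_nx rfl

theorem W.ny {n : ℕ} {x y : ℤ} (h : W n {((0 : ℤ), (0 : ℤ))} {(x, y)}) :
    W n {((0 : ℤ), (0 : ℤ))} {(x, -y)} := h.one Five.ny five_ny rfl

/-- handy forms -/
theorem W.origin {n : ℕ} {c d : Cell} (h : W n {c} {c + d}) : W n {((0 : ℤ), (0 : ℤ))} {d} := by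
  have h1 := h.translate (-c)
  rw [Finset.map_singleton, Finset.map_singleton] at h1
  have e1 : (tr (-c)).toEmbedding c = ((0 : ℤ), (0 : ℤ)) := by
    change c + -c = _
    rw [add_neg_cancel]
    rfl
  have e2 : (tr (-c)).toEmbedding (c + d) = d := by
    change c + d + -c = _
    abel
  rwa [e1, e2] at h1

theorem W.of_origin {n : ℕ} {c d : Cell} (h : W n {((0 : ℤ), (0 : ℤ))} {d}) : W n {c} {c + d} := by
  have h1 := h.translate c
  rw [Finset.map_singleton, Finset.map_singleton] at h1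
  have e1 : (tr c).toEmbedding ((0 : ℤ), (0 : ℤ)) = c := by
    change ((0 : ℤ), (0 : ℤ)) + c = _
    exact zero_add c
  have e2 : (tr c).toEmbedding d = c + d := by
    change d + c = _
    abel
  rwa [e1, e2] at h1

/-- all replies, from the replies in one octant -/
theorem all_of_octant {n : ℕ}
    (h : ∀ d : Cell, d ≠ (0, 0) → 0 ≤ d.2 → d.2 ≤ d.1 → W n {((0 : ℤ), (0 : ℤ))} {d}) (d : Cell)
    (hd : d ≠ (0, 0)) : W n {((0 : ℤ), (0 : ℤ))} {d} := by
  -- the first quadrant
  have q1 : ∀ x y : ℤ, 0 ≤ x → 0 ≤ y → (x, y) ≠ ((0 : ℤ), (0 : ℤ)) →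
      W n {((0 : ℤ), (0 : ℤ))} {(x, y)} := by
    intro x y hx hy hne
    rcases le_total y x with hxy | hxy
    · exact h (x, y) hne hy hxy
    · refine W.sw (h (y, x) ?_ hx hxy)
      intro h1
      apply hne
      rw [Prod.mk.injEq] at h1 ⊢
      exact ⟨h1.2, h1.1⟩
  have hne' : ∀ x y : ℤ, (x, y) ≠ ((0 : ℤ), (0 : ℤ)) → (|x|, |y|) ≠ ((0 : ℤ), (0 : ℤ)) := by
    intro x y hxy h1
    apply hxy
    rw [Prod.mk.injEq] at h1 ⊢
    exact ⟨abs_eq_zero.mp h1.1, abs_eq_zero.mp h1.2⟩
  obtain ⟨x, y⟩ := d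
  have h1 := q1 |x| |y| (abs_nonneg x) (abs_nonneg y) (hne' x y hd)
  have h2 : W n {((0 : ℤ), (0 : ℤ))} {(x, |y|)} := by
    rcases abs_choice x with hx | hx
    · rwa [hx] at h1
    · rw [hx] at h1
      have h3 := h1.nx
      rwa [neg_neg] at h3
  rcases abs_choice y with hy | hy
  · rwa [hy] at h2
  · rw [hy] at h2
    have h3 := h2.ny
    rwa [neg_neg] at h3

theorem not_five_singleton (s : Cell) : ¬ Five {s} := by
  rintro ⟨a, d, hd, hk⟩
  have h0 := hk 0 (by norm_num)
  have h1 := hk 1 (by norm_num)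
  rw [Finset.mem_singleton] at h0 h1
  have h2 : d = 0 := by
    have : a + ((1 : ℕ) : ℤ) • d = a + ((0 : ℕ) : ℤ) • d := by rw [h1, h0]
    simpa using this
  rcases hd with rfl | rfl | rfl | rfl <;> simp [Prod.ext_iff] at h2

/-- **Assembly of the first move.** -/
theorem assemble (h : ∃ n, ∀ d : Cell, d ≠ (0, 0) → 0 ≤ d.2 → d.2 ≤ d.1 →
    W n {((0 : ℤ), (0 : ℤ))} {d}) : ∃ N, W N ∅ ∅ := by
  obtain ⟨n, h⟩ := h
  refine ⟨n + 1, (0, 0), Finset.notMem_empty _, Finset.notMem_empty _, Or.inr fun s hs _ => ?_⟩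
  have hs' : s ≠ ((0 : ℤ), (0 : ℤ)) := by
    intro h1
    apply hs
    rw [h1]
    exact Finset.mem_insert_self _ _
  have e1 : insert ((0 : ℤ), (0 : ℤ)) (∅ : Finset Cell) = {((0 : ℤ), (0 : ℤ))} := rfl
  have e2 : insert s (∅ : Finset Cell) = {s} := rfl
  rw [e1, e2]
  exact ⟨not_five_singleton s, all_of_octant h s hs'⟩

end Pool.Agent.H79.Five
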