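import Pool.Agent.H79.Five.Sem
import Pool.Agent.H83.Five.Sym

set_option autoImplicit false
set_option linter.all false
set_option maxRecDepth 10000

/-! The pair cover: First has the two stones `(14, 14)`, `(15, 15)`, Second has the stone `a`. -/

namespace Pool.Agent.H79.Five

/-- The two stones of First. -/
def AA : Finset Cell := {cl 462, cl 495}

/-- The position with these two stones only. -/
def X00 : ℕ := nat_lit 0x104104104104104104104104104104104104104104104104104104104104104104104104104104104104104104104104104104104104104104104104104104104104104104104104104104104104104104104104104104104104104104104104104104104104104104104104104104104104104104104104104104104104104104104104104104104104104104104104104104104104104104104104104104104104104104104104104104104104104104104104104104104104104104104104104104104104104104104104104104104104104104104104104104104104104104104104104104104104104104104104104104104104104104104104104104104104104104104104104104104104104104104104104104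104104104104104104104104104104104104104104104104104104104104104104104104104104104104104104104104104104104104104104104104104104104104104104104104104104104104104104104104104104104104104104104104104104104104104104104104104104104104104104004104104104104104104104104104104104104104104104100104104104104104104104104104104104104104104104104104104104104104104104104104104104104104104104104104104104104104104104104104104104104104104104104104104104104104104104104104104104104104104104104104104104104104104104104104104104104104104104104104104104104104104104104104104104104104104104104104104104104104104104104104104104104104104104104104104104104104104104104104104104104104104104104104104104104104104104104104104104104104104104104104104104104104104104104104104104104104104104104104104104104104104104104104104104104104104104104104104104104104104104104104104104104104104104104104104104104104104104104104104104104104104104104104104104104104104104104104104104104104104104104104104104104104104104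

theorem rep4 : Rep (Nat.mul 4 ones) ∅ ∅ where
  dig n hn := by
    rw [if_neg (Finset.notMem_empty _), if_neg (Finset.notMem_empty _)]
    change dg (4 * ones) n = 4
    rw [ones_eq, dg_mul_rp (by norm_num), if_pos hn]
  out n hn := by
    change dg (4 * ones) n = 0
    rw [ones_eq, dg_mul_rp (by norm_num), if_neg (by omega)]
  inA c hc := absurd hc (Finset.notMem_empty _)
  inB c hc := absurd hc (Finset.notMem_empty _)
  dis := Finset.disjoint_empty_left _

theorem rep00 : Rep X00 AA ∅ := by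
  have h1 := rep4.plA (m := 495) (by decide +kernel)
  have h2 := h1.plA (m := 462) (by decide +kernel)
  have h3 : X00 = plA (plA (Nat.mul 4 ones) 495) 462 := by decide +kernel
  rw [h3]
  exact h2

/-- The stones of Second, if First has the two stones. -/
def DX (X : ℕ) : ℕ := Nat.xor X X00

def okp (X : ℕ) : Bool :=
  Bool.and (dOk X00 (DX X)) (Bool.and (Nat.beq (Nat.lor (DX X) ones) ones) (Nat.beq (Nat.lor X00 (DX X)) X))

theorem okp_rep {X : ℕ} (h : okp X = true) : Rep X AA (cells (DX X)) := by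
  obtain ⟨h1, h2⟩ := andb h
  obtain ⟨h2, h3⟩ := andb h2
  have h2 := Nat.eq_of_beq_eq_true h2
  have h3 := Nat.eq_of_beq_eq_true h3
  change DX X ||| ones = ones at h2
  have hD : ∀ n, dg (DX X) n = 0 ∨ dg (DX X) n = 1 := by
    intro n
    have h4 : dg (DX X) n ≤ 1 := by
      have h5 : dg (DX X) n ||| dg ones n = dg ones n := by rw [← dg_lor, h2]
      have h6 : dg ones n ≤ 1 := by
        have h7 := dg_mul_rp (d := 1) (by norm_num) 1024 n
        rw [one_mul, ← ones_eq] at h7
        rw [h7]; split_ifs <;> norm_num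
      exact (Nat.left_le_or.trans h5.le).trans h6
    omega
  have h7 := (rep00.lor hD h1).1
  rw [h3, Finset.empty_union] at h7
  exact h7

/-- Second has the stone `a`, First the two stones and the move: every second stone loses. -/
def PC (a : ℕ) : Prop := ∃ n, ∀ b : Cell, b ∉ AA → b ≠ cl a → W n AA {cl a, b}

/-- Zones. -/
def A1 : List (ℕ × ℕ) → Prop
  | [] => True
  | p :: l => NZ p.1 p.2 ∧ A1 l

/-- Won positions. -/
def A0s : List ℕ → Prop
  | [] => True
  | X :: l => S X ∧ A0s l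

def ok1 (L : List (ℕ × ℕ)) : Bool :=
  @List.rec (ℕ × ℕ) (fun _ => Bool) true
    (fun p _ r => Bool.and (Bool.and (okp p.1) (Nat.beq (Nat.lor p.2 inn) inn)) r) L

def ok0 (L : List ℕ) : Bool := @List.rec ℕ (fun _ => Bool) true (fun X _ r => Bool.and (okp X) r) L

theorem A1.get {L : List (ℕ × ℕ)} (h : A1 L) (hk : ok1 L = true) :
    ∃ n, ∀ p ∈ L, (∀ s, s ∉ AA → s ∉ cells p.2 → W n AA (insert s (cells (DX p.1)))) ∧ p.2 ||| inn = inn := by
  induction L with
  | nil => exact ⟨0, fun p hp => absurd hp (by simp)⟩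
  | cons q l ih =>
    obtain ⟨h1, h2⟩ := andb (a := Bool.and (okp q.1) (Nat.beq (Nat.lor q.2 inn) inn)) (b := ok1 l) hk
    obtain ⟨h3, h4⟩ := andb h1
    obtain ⟨n, hn⟩ := ih h.2 h2
    obtain ⟨n', hn'⟩ := h.1 _ _ (okp_rep h3)
    refine ⟨max n n', fun p hp => ?_⟩
    rcases List.mem_cons.1 hp with rfl | hp
    · exact ⟨fun s hs hz => (hn' s hs hz).le (le_max_right _ _), Nat.eq_of_beq_eq_true h4⟩
    · exact ⟨fun s hs hz => ((hn p hp).1 s hs hz).le (le_max_left _ _), (hn p hp).2⟩

theorem A0s.get {L : List ℕ} (h : A0s L) (hk : ok0 L = true) : ∃ n, ∀ X ∈ L, W n AA (cells (DX X)) := by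
  induction L with
  | nil => exact ⟨0, fun p hp => absurd hp (by simp)⟩
  | cons q l ih =>
    obtain ⟨h1, h2⟩ := andb (a := okp q) (b := ok0 l) hk
    obtain ⟨n, hn⟩ := ih h.2 h2
    obtain ⟨n', hn'⟩ := h.1 _ _ (okp_rep h1)
    refine ⟨max n n', fun p hp => ?_⟩
    rcases List.mem_cons.1 hp with rfl | hp
    · exact hn'.le (le_max_right _ _)
    · exact (hn p hp).le (le_max_left _ _)

/-- Bit `m`. -/
def tb (D m : ℕ) : Bool := Nat.beq (Nat.land (Nat.shiftRight D m) (nat_lit 1)) (nat_lit 1)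

theorem tb_eq (D m : ℕ) : tb D m = D.testBit m := by
  change Nat.beq ((D >>> m) &&& 1) 1 = D.testBit m
  rw [Nat.testBit_eq_decide_div_mod_eq, Nat.and_one_is_mod, Nat.shiftRight_eq_div_pow]
  rcases Nat.mod_two_eq_zero_or_one (D / 2 ^ m) with h | h <;> rw [h] <;> rfl

def VA (c : ℕ) (L : List (ℕ × ℕ)) : ℕ :=
  @List.rec (ℕ × ℕ) (fun _ => ℕ) (nat_lit 0) (fun p _ r => Nat.lor (grd (Bool.not (tb p.2 c)) (DX p.1))
    (Nat.lor (grd (tb (DX p.1) c) (Nat.xor ones (Nat.land p.2 ones))) r)) L

def VB (c : ℕ) (L : List ℕ) : ℕ :=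
  @List.rec ℕ (fun _ => ℕ) (nat_lit 0) (fun X _ r => Nat.lor (grd (tb (DX X) c) (DX X)) r) L

/-- The replies which lose with the stone at bit `c`. -/
def VV (c : ℕ) (L1 : List (ℕ × ℕ)) (L0 : List ℕ) : ℕ := Nat.lor (VA c L1) (VB c L0)

theorem grd_tb {b : Bool} {r m : ℕ} (h : (grd b r).testBit m = true) : b = true ∧ r.testBit m = true := by
  cases b
  · change (0 : ℕ).testBit m = true at h
    rw [Nat.zero_testBit] at h
    exact absurd h (by simp)
  · exact ⟨rfl, h⟩

theorem VA_spec {c m : ℕ} {L : List (ℕ × ℕ)} (h : (VA c L).testBit m = true) :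
    ∃ p ∈ L, (p.2.testBit c = false ∧ (DX p.1).testBit m = true) ∨
      ((DX p.1).testBit c = true ∧ p.2.testBit m = false) := by
  induction L with
  | nil =>
    change (0 : ℕ).testBit m = true at h
    rw [Nat.zero_testBit] at h
    exact absurd h (by simp)
  | cons q l ih =>
    change (grd (Bool.not (tb q.2 c)) (DX q.1) |||
      (grd (tb (DX q.1) c) (Nat.xor ones (Nat.land q.2 ones)) ||| VA c l)).testBit m = true at h
    rw [Nat.testBit_or, Nat.testBit_or, Bool.or_eq_true, Bool.or_eq_true] at h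
    rcases h with h | h | h
    · obtain ⟨h1, h2⟩ := grd_tb h
      refine ⟨q, List.mem_cons_self, Or.inl ⟨?_, h2⟩⟩
      rw [tb_eq] at h1
      cases h3 : q.2.testBit c
      · rfl
      · rw [h3] at h1; exact absurd h1 (by decide)
    · obtain ⟨h1, h2⟩ := grd_tb h
      refine ⟨q, List.mem_cons_self, Or.inr ⟨by rw [← tb_eq]; exact h1, ?_⟩⟩
      change (ones ^^^ (q.2 &&& ones)).testBit m = true at h2
      rw [Nat.testBit_xor, Nat.testBit_and] at h2
      cases h3 : q.2.testBit m
      · rfl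
      · rw [h3] at h2
        cases h4 : ones.testBit m <;> rw [h4] at h2 <;> exact absurd h2 (by decide)
    · obtain ⟨p, hp, h1⟩ := ih h
      exact ⟨p, List.mem_cons_of_mem _ hp, h1⟩

theorem VB_spec {c m : ℕ} {L : List ℕ} (h : (VB c L).testBit m = true) :
    ∃ X ∈ L, (DX X).testBit c = true ∧ (DX X).testBit m = true := by
  induction L with
  | nil =>
    change (0 : ℕ).testBit m = true at h
    rw [Nat.zero_testBit] at h
    exact absurd h (by simp)
  | cons q l ih =>
    change (grd (tb (DX q) c) (DX q) ||| VB c l).testBit m = true at h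
    rw [Nat.testBit_or, Bool.or_eq_true] at h
    rcases h with h | h
    · obtain ⟨h1, h2⟩ := grd_tb h
      exact ⟨q, List.mem_cons_self, by rw [← tb_eq]; exact h1, h2⟩
    · obtain ⟨p, hp, h1⟩ := ih h
      exact ⟨p, List.mem_cons_of_mem _ hp, h1⟩

def exk (c : ℕ) (L : List (ℕ × ℕ)) : Bool :=
  @List.rec (ℕ × ℕ) (fun _ => Bool) false (fun p _ r => Bool.or (tb (DX p.1) c) r) L

theorem exk_spec {c : ℕ} {L : List (ℕ × ℕ)} (h : exk c L = true) : ∃ p ∈ L, (DX p.1).testBit c = true := by
  induction L with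
  | nil => exact absurd h (by change ¬ (false = true); simp)
  | cons q l ih =>
    change (tb (DX q.1) c || exk c l) = true at h
    rw [Bool.or_eq_true] at h
    rcases h with h | h
    · exact ⟨q, List.mem_cons_self, by rw [← tb_eq]; exact h⟩
    · obtain ⟨p, hp, h1⟩ := ih h
      exact ⟨p, List.mem_cons_of_mem _ hp, h1⟩

/-- Call by value. -/
def frc (v : ℕ) (k : ℕ → Bool) : Bool := @Nat.rec (fun _ => Bool) false (fun p _ => k p) (Nat.add v (nat_lit 1))

/-- The reply `i + 66` is a loss (`i'` is the transposed number). -/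
def cov (v0 v1 v2 v3 a i i' : ℕ) : Bool :=
  Bool.or (tb v0 (Nat.mul (nat_lit 6) (Nat.add (nat_lit 66) i)))
    (Bool.or (tb v1 (Nat.mul (nat_lit 6) (Nat.add (nat_lit 66) i')))
      (Bool.or (tb v2 (Nat.mul (nat_lit 6) (Nat.sub (nat_lit 891) i)))
        (Bool.or (tb v3 (Nat.mul (nat_lit 6) (Nat.sub (nat_lit 891) i')))
          (Bool.or (Nat.beq (Nat.add (nat_lit 66) i) a)
            (Bool.or (Nat.beq (Nat.add (nat_lit 66) i) (nat_lit 495))
              (Nat.beq (Nat.add (nat_lit 66) i) (nat_lit 462)))))))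

def row (v0 v1 v2 v3 a y n : ℕ) : Bool :=
  @Nat.rec (fun _ => Bool) true (fun x r => Bool.and
    (cov v0 v1 v2 v3 a (Nat.add x (Nat.mul (nat_lit 32) y)) (Nat.add y (Nat.mul (nat_lit 32) x))) r) n

def rows (v0 v1 v2 v3 a n : ℕ) : Bool :=
  @Nat.rec (fun _ => Bool) true (fun y r => Bool.and (row v0 v1 v2 v3 a y (nat_lit 26)) r) n

theorem row_spec {v0 v1 v2 v3 a y n : ℕ} (h : row v0 v1 v2 v3 a y n = true) (x : ℕ) (hx : x < n) :
    cov v0 v1 v2 v3 a (x + 32 * y) (y + 32 * x) = true := by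
  induction n with
  | zero => omega
  | succ n ih =>
    obtain ⟨h1, h2⟩ := andb (b := row v0 v1 v2 v3 a y n) h
    rcases Nat.lt_succ_iff_lt_or_eq.1 hx with hx | rfl
    · exact ih h2 hx
    · exact h1

theorem rows_spec {v0 v1 v2 v3 a n : ℕ} (h : rows v0 v1 v2 v3 a n = true) (y : ℕ) (hy : y < n) :
    row v0 v1 v2 v3 a y 26 = true := by
  induction n with
  | zero => omega
  | succ n ih =>
    obtain ⟨h1, h2⟩ := andb (b := rows v0 v1 v2 v3 a n) h
    rcases Nat.lt_succ_iff_lt_or_eq.1 hy with hy | rfl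
    · exact ih h2 hy
    · exact h1

/-- The transposed number. -/
def tps (a : ℕ) : ℕ := Nat.add (Nat.div a (nat_lit 32)) (Nat.mul (nat_lit 32) (Nat.mod a (nat_lit 32)))

/-- The check. -/
def ck (a : ℕ) (L1 : List (ℕ × ℕ)) (L0 : List ℕ) : Bool :=
  Bool.and (Bool.and (Bool.and (Nat.beq (Nat.lor (bit a) inn) inn)
      (Bool.and (Bool.not (Nat.beq a (nat_lit 495))) (Bool.not (Nat.beq a (nat_lit 462)))))
      (Bool.and (ok1 L1) (ok0 L0)))
    (frc (Nat.mul (nat_lit 6) a) fun c0 => frc (Nat.mul (nat_lit 6) (tps a)) fun c1 =>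
      frc (Nat.mul (nat_lit 6) (Nat.sub (nat_lit 957) a)) fun c2 =>
      frc (Nat.mul (nat_lit 6) (Nat.sub (nat_lit 957) (tps a))) fun c3 =>
        Bool.and (Bool.or (exk c0 L1) (Bool.or (exk c1 L1) (Bool.or (exk c2 L1) (exk c3 L1))))
          (frc (VV c0 L1 L0) fun v0 => frc (VV c1 L1 L0) fun v1 => frc (VV c2 L1 L0) fun v2 =>
            frc (VV c3 L1 L0) fun v3 => rows v0 v1 v2 v3 a (nat_lit 26)))

/-! The symmetries of the pair. -/

/-- `(x, y) ↦ (29 - x, 29 - y)` -/
def pt : Cell ≃ Cell := (tr (-29, -29)).trans (nx.trans ny)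

theorem five_trans {e f : Cell ≃ Cell} (he : ∀ S : Finset Cell, Five (S.map e.toEmbedding) ↔ Five S)
    (hf : ∀ S : Finset Cell, Five (S.map f.toEmbedding) ↔ Five S) (S : Finset Cell) :
    Five (S.map (e.trans f).toEmbedding) ↔ Five S := by
  have h : S.map (e.trans f).toEmbedding = (S.map e.toEmbedding).map f.toEmbedding := by
    rw [Finset.map_map]; rfl
  rw [h, hf, he]

theorem five_refl (S : Finset Cell) : Five (S.map (Equiv.refl Cell).toEmbedding) ↔ Five S := by
  have h : S.map (Equiv.refl Cell).toEmbedding = S := by ext; simp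
  rw [h]

theorem five_pt (S : Finset Cell) : Five (S.map pt.toEmbedding) ↔ Five S :=
  five_trans (five_tr _) (five_trans five_nx five_ny) S

/-- Cells whose images under the symmetries are on the board. -/
def Mid (c : Cell) : Prop := 2 ≤ c.1 ∧ c.1 ≤ 27 ∧ 2 ≤ c.2 ∧ c.2 ≤ 27

theorem Mid.inb {c : Cell} (h : Mid c) : Inb c := by unfold Mid at h; unfold Inb; omega

theorem sw_apply (x y : ℤ) : sw (x, y) = (y, x) := rfl

theorem pt_apply (x y : ℤ) : pt (x, y) = (29 - x, 29 - y) := by
  change (-(x + -29), -(y + -29)) = _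
  ext <;> simp only <;> ring

/-- A symmetry of the pair, with its effect `f` on numbers. -/
structure Sy (e : Cell ≃ Cell) (f : ℕ → ℕ) : Prop where
  five : ∀ S : Finset Cell, Five (S.map e.toEmbedding) ↔ Five S
  inv : ∀ c, e (e c) = c
  aa : ∀ c, e c ∈ AA ↔ c ∈ AA
  mid : ∀ c, Mid c → Mid (e c) ∧ ix (e c) = f (ix c)
  inr : ∀ c, Inr (e c) → Mid c

theorem mem_AA (c : Cell) : c ∈ AA ↔ c = (14, 14) ∨ c = (15, 15) := by
  unfold AA
  rw [Finset.mem_insert, Finset.mem_singleton]
  exact Iff.rfl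

theorem sy0 : Sy (Equiv.refl Cell) (fun a => a) where
  five := five_refl
  inv c := rfl
  aa c := Iff.rfl
  mid c h := ⟨h, rfl⟩
  inr c h := by
    change Inr c at h
    unfold Inr at h; unfold Mid; omega

theorem sy1 : Sy sw tps where
  five := five_sw
  inv c := rfl
  aa c := by
    obtain ⟨x, y⟩ := c
    rw [sw_apply, mem_AA, mem_AA]
    simp only [Prod.mk.injEq]
    omega
  mid c h := by
    obtain ⟨x, y⟩ := c
    rw [sw_apply]
    unfold Mid at h ⊢
    refine ⟨by omega, ?_⟩
    change (y + 32 * x).toNat = (x + 32 * y).toNat / 32 + 32 * ((x + 32 * y).toNat % 32)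
    simp only at h
    omega
  inr c h := by
    obtain ⟨x, y⟩ := c
    rw [sw_apply] at h
    unfold Inr at h; unfold Mid; simp only at h ⊢; omega

theorem sy2 : Sy pt (fun a => Nat.sub 957 a) where
  five := five_pt
  inv c := by
    obtain ⟨x, y⟩ := c
    rw [pt_apply, pt_apply]
    ext <;> simp only <;> ring
  aa c := by
    obtain ⟨x, y⟩ := c
    rw [pt_apply, mem_AA, mem_AA]
    simp only [Prod.mk.injEq]
    omega
  mid c h := by
    obtain ⟨x, y⟩ := c
    rw [pt_apply]
    unfold Mid at h ⊢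
    simp only at h ⊢
    refine ⟨by omega, ?_⟩
    change (29 - x + 32 * (29 - y)).toNat = 957 - (x + 32 * y).toNat
    omega
  inr c h := by
    obtain ⟨x, y⟩ := c
    rw [pt_apply] at h
    unfold Inr at h; unfold Mid; simp only at h ⊢; omega

theorem sy3 : Sy (sw.trans pt) (fun a => Nat.sub 957 (tps a)) where
  five := five_trans five_sw five_pt
  inv c := by
    obtain ⟨x, y⟩ := c
    change pt (sw (pt (sw (x, y)))) = (x, y)
    rw [sw_apply, pt_apply, sw_apply, pt_apply]
    ext <;> simp only <;> ring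
  aa c := by
    change pt (sw c) ∈ AA ↔ c ∈ AA
    rw [sy2.aa, sy1.aa]
  mid c h := by
    have h1 := sy1.mid c h
    have h2 := sy2.mid _ h1.1
    refine ⟨h2.1, ?_⟩
    change ix (pt (sw c)) = _
    rw [h2.2, h1.2]
  inr c h := by
    obtain ⟨x, y⟩ := c
    change Inr (pt (sw (x, y))) at h
    rw [sw_apply, pt_apply] at h
    unfold Inr at h; unfold Mid; simp only at h ⊢; omega

theorem Sy.map_AA {e : Cell ≃ Cell} {f : ℕ → ℕ} (h : Sy e f) : AA.map e.toEmbedding = AA := by
  ext c
  rw [Finset.mem_map]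
  constructor
  · rintro ⟨d, hd, rfl⟩
    exact (h.aa d).2 hd
  · intro hc
    exact ⟨e c, (h.aa c).2 hc, h.inv c⟩

theorem Sy.back {e : Cell ≃ Cell} {f : ℕ → ℕ} (h : Sy e f) {n : ℕ} {a b : Cell} (hw : W n AA {e a, e b}) :
    W n AA {a, b} := by
  have h1 := hw.map e h.five
  rw [h.map_AA, Finset.map_insert, Finset.map_singleton] at h1
  change W n AA {e (e a), e (e b)} at h1
  rwa [h.inv, h.inv] at h1

variable {n : ℕ} {L1 : List (ℕ × ℕ)} {L0 : List ℕ}

/-- One symmetry, the reply on the board. -/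
theorem Sy.on {e : Cell ≃ Cell} {f : ℕ → ℕ} (h : Sy e f)
    (w1 : ∀ p ∈ L1, (∀ s, s ∉ AA → s ∉ cells p.2 → W n AA (insert s (cells (DX p.1)))) ∧ p.2 ||| inn = inn)
    (w0 : ∀ X ∈ L0, W n AA (cells (DX X))) {a b : Cell} (ha : Mid a) (haA : a ∉ AA) (hb : Mid b) (hbA : b ∉ AA)
    (hV : (VV (6 * f (ix a)) L1 L0).testBit (6 * f (ix b)) = true) : W n AA {a, b} := by
  apply h.back
  obtain ⟨ha1, ha2⟩ := h.mid a ha
  obtain ⟨hb1, hb2⟩ := h.mid b hb
  rw [← ha2, ← hb2] at hV
  have hta : ∀ D : ℕ, D.testBit (6 * ix (e a)) = true → e a ∈ cells D := fun D hD => mem_cells.2 ⟨ha1.inb, hD⟩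
  have htb : ∀ D : ℕ, D.testBit (6 * ix (e b)) = true → e b ∈ cells D := fun D hD => mem_cells.2 ⟨hb1.inb, hD⟩
  change (VA (6 * ix (e a)) L1 ||| VB (6 * ix (e a)) L0).testBit _ = true at hV
  rw [Nat.testBit_or, Bool.or_eq_true] at hV
  rcases hV with hV | hV
  · obtain ⟨p, hp, h1 | h1⟩ := VA_spec hV
    · -- the second stone is in the set, the first outside the zone
      have h2 := (w1 p hp).1 (e a) (fun hc => haA ((h.aa a).1 hc)) (fun hc => by
        have := (mem_cells.1 hc).2
        rw [h1.1] at this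
        exact absurd this (by simp))
      refine h2.anti ?_
      intro x hx
      rw [Finset.mem_insert, Finset.mem_singleton] at hx
      rcases hx with rfl | rfl
      · exact Finset.mem_insert_self _ _
      · exact Finset.mem_insert_of_mem (htb _ h1.2)
    · have h2 := (w1 p hp).1 (e b) (fun hc => hbA ((h.aa b).1 hc)) (fun hc => by
        have := (mem_cells.1 hc).2
        rw [h1.2] at this
        exact absurd this (by simp))
      refine h2.anti ?_
      intro x hx
      rw [Finset.mem_insert, Finset.mem_singleton] at hx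
      rcases hx with rfl | rfl
      · exact Finset.mem_insert_of_mem (hta _ h1.1)
      · exact Finset.mem_insert_self _ _
  · obtain ⟨X, hX, h1, h2⟩ := VB_spec hV
    refine (w0 X hX).anti ?_
    intro x hx
    rw [Finset.mem_insert, Finset.mem_singleton] at hx
    rcases hx with rfl | rfl
    · exact hta _ h1
    · exact htb _ h2

/-- One symmetry, the reply outside. -/
theorem Sy.off {e : Cell ≃ Cell} {f : ℕ → ℕ} (h : Sy e f)
    (w1 : ∀ p ∈ L1, (∀ s, s ∉ AA → s ∉ cells p.2 → W n AA (insert s (cells (DX p.1)))) ∧ p.2 ||| inn = inn)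
    {a b : Cell} (ha : Mid a) (hb : ¬ Mid b) (hbA : b ∉ AA) (hV : exk (6 * f (ix a)) L1 = true) : W n AA {a, b} := by
  apply h.back
  obtain ⟨ha1, ha2⟩ := h.mid a ha
  rw [← ha2] at hV
  obtain ⟨p, hp, h1⟩ := exk_spec hV
  have h2 := (w1 p hp).1 (e b) (fun hc => hbA ((h.aa b).1 hc)) (fun hc => by
    obtain ⟨h3, h4⟩ := mem_cells.1 hc
    have h5 : inn.testBit (6 * ix (e b)) = true := by
      rw [← (w1 p hp).2, Nat.testBit_or, h4]; rfl
    have h6 := (inn_inr h5).2
    rw [cl_ix h3] at h6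
    exact hb (h.inr b h6))
  refine h2.anti ?_
  intro x hx
  rw [Finset.mem_insert, Finset.mem_singleton] at hx
  rcases hx with rfl | rfl
  · exact Finset.mem_insert_of_mem (mem_cells.2 ⟨ha1.inb, h1⟩)
  · exact Finset.mem_insert_self _ _

/-- **The pair cover.** -/
theorem PC.of (a : ℕ) (L1 : List (ℕ × ℕ)) (L0 : List ℕ) (h : ck a L1 L0 = true) (h1 : A1 L1) (h0 : A0s L0) : PC a := by
  obtain ⟨h, hm⟩ := andb h
  obtain ⟨h, hk⟩ := andb h
  obtain ⟨hin, hne⟩ := andb h
  obtain ⟨hne1, hne2⟩ := andb hne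
  obtain ⟨hk1, hk0⟩ := andb hk
  have hin := Nat.eq_of_beq_eq_true hin
  change bit a ||| inn = inn at hin
  have hin2 : inn.testBit (6 * a) = true := by
    rw [← hin, Nat.testBit_or, bit_self]; rfl
  obtain ⟨ha, hair⟩ := inn_inr hin2
  have haM : Mid (cl a) := by
    unfold Inr at hair; unfold Mid; omega
  have haA : cl a ∉ AA := by
    unfold AA
    rw [Finset.mem_insert, Finset.mem_singleton]
    rintro (hc | hc)
    · rw [cl_inj hc] at hne2
      exact absurd hne2 (by decide)
    · rw [cl_inj hc] at hne1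
      exact absurd hne1 (by decide)
  change Bool.and (Bool.or (exk (6 * a) L1) (Bool.or (exk (6 * tps a) L1)
    (Bool.or (exk (6 * Nat.sub 957 a) L1) (exk (6 * Nat.sub 957 (tps a)) L1))))
    (rows (VV (6 * a) L1 L0) (VV (6 * tps a) L1 L0) (VV (6 * Nat.sub 957 a) L1 L0)
      (VV (6 * Nat.sub 957 (tps a)) L1 L0) a 26) = true at hm
  obtain ⟨hex, hrows⟩ := andb hm
  obtain ⟨n1, hn1⟩ := h1.get hk1
  obtain ⟨n0, hn0⟩ := h0.get hk0
  have w1 : ∀ p ∈ L1, (∀ s, s ∉ AA → s ∉ cells p.2 → W (max n1 n0) AA (insert s (cells (DX p.1)))) ∧ p.2 ||| inn = inn :=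
    fun p hp => ⟨fun s hs hz => ((hn1 p hp).1 s hs hz).le (le_max_left _ _), (hn1 p hp).2⟩
  have w0 : ∀ X ∈ L0, W (max n1 n0) AA (cells (DX X)) := fun X hX => (hn0 X hX).le (le_max_right _ _)
  refine ⟨max n1 n0, fun b hbA hba => ?_⟩
  by_cases hb : Mid b
  · -- on the board
    obtain ⟨x, y⟩ := b
    unfold Mid at hb
    simp only at hb
    obtain ⟨x', rfl⟩ : ∃ x' : ℕ, x = 2 + (x' : ℤ) := ⟨(x - 2).toNat, by omega⟩
    obtain ⟨y', rfl⟩ : ∃ y' : ℕ, y = 2 + (y' : ℤ) := ⟨(y - 2).toNat, by omega⟩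
    have hbM : Mid (2 + (x' : ℤ), 2 + (y' : ℤ)) := hb
    have hc := row_spec (rows_spec hrows y' (by omega)) x' (by omega)
    have e0 : ix (2 + (x' : ℤ), 2 + (y' : ℤ)) = 66 + (x' + 32 * y') := by
      unfold ix; simp only; omega
    have e1 : tps (ix (2 + (x' : ℤ), 2 + (y' : ℤ))) = 66 + (y' + 32 * x') := by
      rw [e0]
      change (66 + (x' + 32 * y')) / 32 + 32 * ((66 + (x' + 32 * y')) % 32) = _
      omega
    have e2 : Nat.sub 957 (ix (2 + (x' : ℤ), 2 + (y' : ℤ))) = 891 - (x' + 32 * y') := by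
      rw [e0]
      change 957 - (66 + (x' + 32 * y')) = _
      omega
    have e3 : Nat.sub 957 (tps (ix (2 + (x' : ℤ), 2 + (y' : ℤ)))) = 891 - (y' + 32 * x') := by
      rw [e1]
      change 957 - (66 + (y' + 32 * x')) = _
      omega
    have eb : ∀ m, 66 + (x' + 32 * y') = m → (2 + (x' : ℤ), 2 + (y' : ℤ)) = cl m := by
      rintro m rfl
      rw [← e0, cl_ix hbM.inb]
    have ea : ix (cl a) = a := ix_cl a
    change (tb (VV (6 * a) L1 L0) (6 * (66 + (x' + 32 * y'))) ||
      (tb (VV (6 * tps a) L1 L0) (6 * (66 + (y' + 32 * x'))) ||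
      (tb (VV (6 * Nat.sub 957 a) L1 L0) (6 * (891 - (x' + 32 * y'))) ||
      (tb (VV (6 * Nat.sub 957 (tps a)) L1 L0) (6 * (891 - (y' + 32 * x'))) ||
      (Nat.beq (66 + (x' + 32 * y')) a || (Nat.beq (66 + (x' + 32 * y')) 495 ||
        Nat.beq (66 + (x' + 32 * y')) 462)))))) = true at hc
    simp only [Bool.or_eq_true, tb_eq] at hc
    rcases hc with hc | hc | hc | hc | hc | hc | hc
    · refine sy0.on w1 w0 haM haA hbM hbA ?_
      rw [ea, e0]; exact hc
    · refine sy1.on w1 w0 haM haA hbM hbA ?_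
      rw [ea, e1]; exact hc
    · refine sy2.on w1 w0 haM haA hbM hbA ?_
      rw [ea, e2]; exact hc
    · refine sy3.on w1 w0 haM haA hbM hbA ?_
      rw [ea, e3]; exact hc
    · exact absurd (eb _ (Nat.eq_of_beq_eq_true hc)) hba
    · exfalso
      apply hbA
      rw [eb _ (Nat.eq_of_beq_eq_true hc)]
      exact Finset.mem_insert_of_mem (Finset.mem_singleton_self _)
    · exfalso
      apply hbA
      rw [eb _ (Nat.eq_of_beq_eq_true hc)]
      exact Finset.mem_insert_self _ _
  · have ea : ix (cl a) = a := ix_cl a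
    change (exk (6 * a) L1 || (exk (6 * tps a) L1 ||
      (exk (6 * Nat.sub 957 a) L1 || exk (6 * Nat.sub 957 (tps a)) L1))) = true at hex
    simp only [Bool.or_eq_true] at hex
    rcases hex with hc | hc | hc | hc
    · exact sy0.off w1 haM hb hbA (by rw [ea]; exact hc)
    · exact sy1.off w1 haM hb hbA (by rw [ea]; exact hc)
    · exact sy2.off w1 haM hb hbA (by rw [ea]; exact hc)
    · exact sy3.off w1 haM hb hbA (by rw [ea]; exact hc)

/-! The second move of First. -/

theorem not_five_pair (a b : Cell) : ¬ Five {a, b} := by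
  intro h
  obtain ⟨c, d, hd, hw, hcnt⟩ := cnt_five h
  have h1 := cnt_insert hd {b} a c
  have h2 := cnt_insert hd ∅ b c
  have h3 : cnt ∅ c d = 0 := by unfold cnt; simp
  have e2 : insert b (∅ : Finset Cell) = {b} := rfl
  rw [e2] at h2
  have e1 : insert a ({b} : Finset Cell) = {a, b} := rfl
  rw [e1] at h1
  omega

/-- First answers the stone `a` by completing the pair. -/
theorem PC.two {a : ℕ} (h : PC a) (h1 : a ≠ 495) (h2 : a ≠ 462) : ∃ n, W n {cl 495} {cl a} ∧ W n {cl 462} {cl a} := by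
  obtain ⟨n, hn⟩ := h
  have key : ∀ f g : ℕ, f ≠ g → g ≠ a → AA = {cl g, cl f} → W (n + 1) {cl f} {cl a} := by
    intro f g hfg hga hAA
    refine ⟨cl g, ?_, ?_, Or.inr fun s hs hs' => ?_⟩
    · rw [Finset.mem_singleton]; exact fun hc => hfg (cl_inj hc).symm
    · rw [Finset.mem_singleton]; exact fun hc => hga (cl_inj hc)
    · have e1 : insert (cl g) ({cl f} : Finset Cell) = AA := hAA.symm
      rw [e1] at hs ⊢
      rw [Finset.mem_singleton] at hs'
      refine ⟨not_five_pair s (cl a), ?_⟩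
      have h3 := hn s hs hs'
      rwa [Finset.pair_comm] at h3
  exact ⟨n + 1, key 495 462 (by norm_num) (Ne.symm h2) rfl, key 462 495 (by norm_num) (Ne.symm h1) (Finset.pair_comm _ _)⟩

def ad (p q : ℕ) : ℕ := Nat.add (Nat.sub p q) (Nat.sub q p)

/-- `cl a - (f, f)` is `(dx, dy)` up to the symmetries of the square. -/
def mt (a f dx dy : ℕ) : Bool :=
  Bool.or (Bool.and (Nat.beq (ad (Nat.mod a (nat_lit 32)) f) dx) (Nat.beq (ad (Nat.div a (nat_lit 32)) f) dy))
    (Bool.and (Nat.beq (ad (Nat.mod a (nat_lit 32)) f) dy) (Nat.beq (ad (Nat.div a (nat_lit 32)) f) dx))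

def mts (as : List ℕ) (dx dy : ℕ) : Bool :=
  @List.rec ℕ (fun _ => Bool) false (fun a _ r => Bool.or (Bool.and (Bool.or (mt a (nat_lit 15) dx dy) (mt a (nat_lit 14) dx dy))
    (Bool.and (Bool.not (Nat.beq a (nat_lit 495))) (Bool.not (Nat.beq a (nat_lit 462))))) r) as

def nks (as : List ℕ) (dx n : ℕ) : Bool :=
  @Nat.rec (fun _ => Bool) true (fun dy r => Bool.and (mts as dx dy) r) n

/-- All `(dx, dy)` with `0 ≤ dy ≤ dx ≤ n`, `1 ≤ dx` are covered. -/
def nk (as : List ℕ) (n : ℕ) : Bool :=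
  @Nat.rec (fun _ => Bool) true (fun d r => Bool.and (nks as (Nat.succ d) (Nat.succ (Nat.succ d))) r) n

theorem nks_spec {as : List ℕ} {dx n : ℕ} (h : nks as dx n = true) (dy : ℕ) (hy : dy < n) : mts as dx dy = true := by
  induction n with
  | zero => omega
  | succ n ih =>
    obtain ⟨h1, h2⟩ := andb (b := nks as dx n) h
    rcases Nat.lt_succ_iff_lt_or_eq.1 hy with hy | rfl
    · exact ih h2 hy
    · exact h1

theorem nk_spec {as : List ℕ} {n : ℕ} (h : nk as n = true) (dx dy : ℕ) (h1 : 1 ≤ dx) (hx : dx ≤ n) (hy : dy ≤ dx) :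
    mts as dx dy = true := by
  induction n with
  | zero => omega
  | succ n ih =>
    obtain ⟨h2, h3⟩ := andb (b := nk as n) h
    rcases Nat.lt_or_ge n dx with hc | hc
    · have e : dx = Nat.succ n := by omega
      subst e
      exact nks_spec h2 dy (by omega)
    · exact ih h3 hc

theorem mts_spec {as : List ℕ} {dx dy : ℕ} (h : mts as dx dy = true) :
    ∃ a ∈ as, (mt a 15 dx dy = true ∨ mt a 14 dx dy = true) ∧ a ≠ 495 ∧ a ≠ 462 := by
  induction as with
  | nil => exact absurd h (by change ¬ (false = true); simp)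
  | cons q l ih =>
    change (Bool.and (Bool.or (mt q 15 dx dy) (mt q 14 dx dy))
      (Bool.and (Bool.not (Nat.beq q 495)) (Bool.not (Nat.beq q 462))) || mts l dx dy) = true at h
    rw [Bool.or_eq_true] at h
    rcases h with h | h
    · obtain ⟨h1, h2⟩ := andb h
      obtain ⟨h2, h3⟩ := andb h2
      refine ⟨q, List.mem_cons_self, ?_, ?_, ?_⟩
      · change (mt q 15 dx dy || mt q 14 dx dy) = true at h1
        rwa [Bool.or_eq_true] at h1
      · rintro rfl; exact absurd h2 (by decide)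
      · rintro rfl; exact absurd h3 (by decide)
    · obtain ⟨p, hp, h1⟩ := ih h
      exact ⟨p, List.mem_cons_of_mem _ hp, h1⟩

theorem W.abs {n : ℕ} {x y : ℤ} (h : W n {((0 : ℤ), (0 : ℤ))} {(x, y)}) : W n {((0 : ℤ), (0 : ℤ))} {(|x|, |y|)} := by
  have h1 : W n {((0 : ℤ), (0 : ℤ))} {(|x|, y)} := by
    rcases abs_choice x with hx | hx
    · rwa [hx]
    · rw [hx]; exact h.nx
  rcases abs_choice y with hy | hy
  · rwa [hy]
  · rw [hy]; exact h1.ny

theorem mt_win {n a f dx dy : ℕ} (h : mt a f dx dy = true) (hw : W n {((f : ℤ), (f : ℤ))} {cl a}) :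
    W n {((0 : ℤ), (0 : ℤ))} {((dx : ℤ), (dy : ℤ))} := by
  have h1 : W n {((f : ℤ), (f : ℤ))} {((f : ℤ), (f : ℤ)) + (((a % 32 : ℕ) : ℤ) - f, ((a / 32 : ℕ) : ℤ) - f)} := by
    have e : ((f : ℤ), (f : ℤ)) + (((a % 32 : ℕ) : ℤ) - f, ((a / 32 : ℕ) : ℤ) - f) = cl a := by
      unfold cl
      ext <;> simp
    rwa [e]
  have h2 := h1.origin.abs
  have had : ∀ p : ℕ, |(p : ℤ) - f| = (ad p f : ℕ) := by
    intro p
    change |(p : ℤ) - f| = (((p - f) + (f - p) : ℕ) : ℤ)
    rcases le_total p f with hp | hp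
    · rw [abs_of_nonpos (by omega)]; omega
    · rw [abs_of_nonneg (by omega)]; omega
  rw [had, had] at h2
  change (Bool.and (Nat.beq (ad (a % 32) f) dx) (Nat.beq (ad (a / 32) f) dy) ||
    Bool.and (Nat.beq (ad (a % 32) f) dy) (Nat.beq (ad (a / 32) f) dx)) = true at h
  rw [Bool.or_eq_true] at h
  rcases h with h | h
  · obtain ⟨h3, h4⟩ := andb h
    rw [Nat.eq_of_beq_eq_true h3, Nat.eq_of_beq_eq_true h4] at h2
    exact h2
  · obtain ⟨h3, h4⟩ := andb h
    rw [Nat.eq_of_beq_eq_true h3, Nat.eq_of_beq_eq_true h4] at h2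
    exact h2.sw

/-- All replies to the first move in the octant, up to distance `k`. -/
theorem near (as : List ℕ) (k : ℕ) (h : ∀ a ∈ as, PC a) (hc : nk as k = true) :
    ∃ n, ∀ d : Cell, d ≠ (0, 0) → 0 ≤ d.2 → d.2 ≤ d.1 → d.1 ≤ k → W n {((0 : ℤ), (0 : ℤ))} {d} := by
  have hn : ∃ n, ∀ a ∈ as, a ≠ 495 → a ≠ 462 → W n {cl 495} {cl a} ∧ W n {cl 462} {cl a} := by
    clear hc
    induction as with
    | nil => exact ⟨0, fun a ha => absurd ha (by simp)⟩
    | cons q l ih =>
      obtain ⟨n, hn⟩ := ih fun a ha => h a (List.mem_cons_of_mem _ ha)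
      by_cases hq : q ≠ 495 ∧ q ≠ 462
      · obtain ⟨n', hn'⟩ := (h q List.mem_cons_self).two hq.1 hq.2
        refine ⟨max n n', fun a ha h1 h2 => ?_⟩
        rcases List.mem_cons.1 ha with rfl | ha
        · exact ⟨hn'.1.le (le_max_right _ _), hn'.2.le (le_max_right _ _)⟩
        · exact ⟨(hn a ha h1 h2).1.le (le_max_left _ _), (hn a ha h1 h2).2.le (le_max_left _ _)⟩
      · refine ⟨n, fun a ha h1 h2 => ?_⟩
        rcases List.mem_cons.1 ha with rfl | ha
        · exact absurd ⟨h1, h2⟩ hq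
        · exact hn a ha h1 h2
  obtain ⟨n, hn⟩ := hn
  refine ⟨n, fun d hd h1 h2 h3 => ?_⟩
  obtain ⟨x, y⟩ := d
  simp only at h1 h2 h3
  obtain ⟨x', rfl⟩ : ∃ x' : ℕ, x = (x' : ℤ) := ⟨x.toNat, by omega⟩
  obtain ⟨y', rfl⟩ : ∃ y' : ℕ, y = (y' : ℤ) := ⟨y.toNat, by omega⟩
  have hx : 1 ≤ x' := by
    by_contra hx
    apply hd
    have e1 : x' = 0 := by omega
    have e2 : y' = 0 := by omega
    rw [e1, e2]; rfl
  obtain ⟨a, ha, h4, h5, h6⟩ := mts_spec (nk_spec hc x' y' hx (by omega) (by omega))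
  obtain ⟨h7, h8⟩ := hn a ha h5 h6
  rcases h4 with h4 | h4
  · exact mt_win (f := 15) h4 h7
  · exact mt_win (f := 14) h4 h8

end Pool.Agent.H79.Five
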